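import Pool.Agent.Results.MP_a825e8_mp.NearClosedGeodesics
import Pool.Agent.L7h46.SB.Den1
import Pool.Agent.L7h50.SB.Bai1

/-!
# The `C¹`-generic metric which keeps a closed geodesic has unbounded correlations

Let the closed surface `(M, g)` have a closed geodesic with a conformal collar, for instance let it be
hyperbolic. We consider all metrics `exp φ · g` with `φ` continuously differentiable for which the
core of the collar remains a closed geodesic with constant speed, with the `C¹` topology. This space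
is a Baire space, and its generic element has unbounded `n`-point correlations for all `n ≥ 2` and
many small gaps; the metrics which contain a band of a round sphere are dense in it.
-/

set_option autoImplicit false

open Set Filter Topology MeasureTheory
open scoped Real ContDiff UniformConvergence
open Pool.Agent.Y262.QE

noncomputable section

namespace Pool.Agent.Results.MP_a825e8_mp.C1Generic

open Pool.Agent.Results.MP_a825e8_mp.SurfacesLimitStatistics (IsUnfolded number)
open Pool.Agent.Results.MP_a825e8_mp.RoundBand (corr gaps)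
open Pool.Agent.Results.MP_a825e8_mp.NearClosedGeodesics (IsCollar)

/-- the continuously differentiable conformal factors `φ` for which the unit circle of the chart `i` remains a
closed geodesic with constant speed: the differential of `φ` vanishes on the circle -/
def C1sp {M : Type} [TopologicalSpace M] (D : Data M) (i : Fin D.N) : Type :=
  {φ : C(M, ℝ) // D.C1 φ ∧ ∀ z : ℂ, ‖z‖ = 1 → fderiv ℝ (fun y => φ (D.ψ i y)) z = 0}

/-- the `C¹` topology: uniform convergence of the functions and of their gradients -/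
instance {M : Type} [TopologicalSpace M] (D : Data M) (i : Fin D.N) :
    TopologicalSpace (C1sp D i) :=
  TopologicalSpace.induced (fun φ => ((φ.1 : C(M, ℝ)), UniformFun.ofFun (D.gr φ.1)))
    (inferInstance : TopologicalSpace (C(M, ℝ) × (M →ᵤ ℂ)))

/-- neighbourhoods in the `C¹` topology -/
theorem near_mem {M : Type} [MetricSpace M] [CompactSpace M] (D : Data M) (i : Fin D.N)
    (φ : C1sp D i) (V : Set (C1sp D i)) (hV : V ∈ 𝓝 φ) :
    ∃ ε : ℝ, 0 < ε ∧ ∀ ψ : C1sp D i, dist ψ.1 φ.1 < ε →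
      (∀ x, ‖D.gr ψ.1 x - D.gr φ.1 x‖ < ε) → ψ ∈ V := by
  rw [nhds_induced, mem_comap] at hV
  obtain ⟨t, ht, htV⟩ := hV
  rw [nhds_prod_eq, mem_prod_iff] at ht
  obtain ⟨t1, ht1, t2, ht2, h12⟩ := ht
  obtain ⟨ε1, hε1, h1⟩ := Metric.mem_nhds_iff.1 ht1
  have h2 := (UniformFun.hasBasis_nhds M ℂ (UniformFun.ofFun (D.gr φ.1))).mem_iff.1 ht2
  obtain ⟨W, hW, h3⟩ := h2
  obtain ⟨ε2, hε2, h4⟩ := Metric.mem_uniformity_dist.1 hW
  refine ⟨min ε1 ε2, lt_min hε1 hε2, fun ψ h5 h6 => htV ?_⟩
  apply h12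
  refine ⟨h1 (Metric.mem_ball.2 (h5.trans_le (min_le_left _ _))), h3 ?_⟩
  intro x
  apply h4
  rw [dist_comm, dist_eq_norm]
  exact (h6 x).trans_le (min_le_right _ _)

theorem result (M : Type) [MetricSpace M] [CompactSpace M] [MeasurableSpace M] [BorelSpace M]
    [Nonempty M] (μ : Measure M) (D : Data M) (hD : D.IsSurf μ) (i : Fin D.N) (a η : ℝ)
    (w : ℂ → ℝ) (hw : IsCollar D i a η w) :
    BaireSpace (C1sp D i) ∧
    ∀ x : C1sp D i → ℕ → ℝ, (∀ φ, IsUnfolded D μ φ.1 (x φ)) →
      -- generic metrics have unbounded correlations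
      (∀ᶠ φ in residual (C1sp D i), ∀ (n : ℕ) (f : (Fin (n + 1) → ℝ) → ℝ), Continuous f →
        (∀ y, 0 ≤ f y) → 0 < f 0 → ∀ C : ℝ, ∃ᶠ T : ℝ in atTop, C ≤ corr n f T (x φ)) ∧
      -- generic metrics have many small gaps
      ∀ b c : ℝ → ℝ, Tendsto (fun T => b T * Real.sqrt T) atTop atTop → Tendsto c atTop (𝓝 0) →
        ∀ᶠ φ in residual (C1sp D i), ∃ᶠ T : ℝ in atTop, c T * T ≤ gaps (b T) T (x φ) := by
  have hcol : Pool.Agent.L7h70.SB.IsCollar D i a η w :=
    ⟨hw.posa, hw.posη, hw.ann, hw.smooth, hw.circ⟩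
  have hι : Continuous fun φ : C1sp D i => (φ.1 : C(M, ℝ)) :=
    continuous_fst.comp (continuous_induced_dom (f := fun φ : C1sp D i =>
      ((φ.1 : C(M, ℝ)), UniformFun.ofFun (D.gr φ.1))))
  have hd : Dense {φ : C1sp D i | Pool.Agent.L7h70.SB.HasBand D φ.1} := by
    intro φ
    rw [mem_closure_iff_nhds]
    intro V hV
    obtain ⟨ε, hε, h1⟩ := near_mem D i φ V hV
    obtain ⟨ψ, h2, h3, h4, h5, h6⟩ := Pool.Agent.L7h46.SB.s_DEN1 M μ D hD i a η w hcol φ.1 φ.2.1
      φ.2.2 ε hε
    exact ⟨⟨ψ, h2, h3⟩, h1 _ h5 h6, h4⟩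
  refine ⟨?_, fun x hx => ⟨?_, ?_⟩⟩
  · refine Pool.Agent.L7h50.SB.s_BAI1 M μ D hD i fun z hz => (hw.ann z ?_ ?_).1
    · rw [hz]
      exact Real.exp_le_one_iff.2 (by linarith [hw.posη])
    · rw [hz]
      exact Real.one_le_exp hw.posη.le
  · exact Pool.Agent.L7h70.SB.generic Pool.Agent.L7h70.SB.t_CL Pool.Agent.L7h70.SB.t_CNT hD
      (C1sp D i) (fun φ => φ.1) hι hd x hx
  · intro b c hb hc
    exact Pool.Agent.L7h70.SB.generic2 Pool.Agent.L7h70.SB.t_CL Pool.Agent.L7h70.SB.t_GAP hD
      (C1sp D i) (fun φ => φ.1) hι hd x hx b c hb hc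

end Pool.Agent.Results.MP_a825e8_mp.C1Generic
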