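import Pool.Agent.L7h70.SB.Top

/-!
# Surfaces with a band of a round sphere

If a closed surface contains a band around a great circle of a round sphere of any radius, however
thin, then for every `n ≥ 2` the `n`-point correlation sums of its unfolded levels grow at least like
`T ^ ((n - 1) / 2)`, for every nonnegative continuous test function which is positive at zero, and a
positive proportion of the levels `x_k ≤ T` have a distance `≤ C / √T` to the next level. In
particular the local statistics do not converge to those of the GOE: the pair correlation does not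
converge to any locally finite measure, and every limit law of the nearest neighbour spacings has an
atom at zero.
-/

set_option autoImplicit false

open Set Filter Topology MeasureTheory
open scoped Real ContDiff
open Pool.Agent.Y262.QE

noncomputable section

namespace Pool.Agent.Results.MP_a825e8_mp.RoundBand

open Pool.Agent.Results.MP_a825e8_mp.SurfacesLimitStatistics (IsUnfolded number)

/-- The metric `exp φ · g` of the surface contains a band around a great circle of a round sphere: in the
chart `i`, on the annulus `R exp (-η) ≤ |z - z₀| ≤ R exp η`, it is equal to `c` times the metric of the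
unit sphere in stereographic coordinates for which the circle `|z - z₀| = R` is the equator. -/
def HasBand {M : Type} [TopologicalSpace M] (D : Data M) (φ : C(M, ℝ)) : Prop :=
  ∃ (i : Fin D.N) (z₀ : ℂ) (R η c : ℝ), 0 < R ∧ 0 < η ∧ 0 < c ∧
    ∀ z : ℂ, R * Real.exp (-η) ≤ ‖z - z₀‖ → ‖z - z₀‖ ≤ R * Real.exp η → z ∈ D.T i ∧
      ∀ v : ℂ, Real.exp (φ (D.ψ i z)) * ‖D.A i z v‖ ^ 2 =
        c * (2 * R / (R ^ 2 + ‖z - z₀‖ ^ 2)) ^ 2 * ‖v‖ ^ 2

open Classical in
/-- the `(n + 2)`-point correlation sum: `1 / T` times the sum of `f (x_{k_1} - x_{k_0}, ...)` over the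
pairwise distinct indices `k_0, ..., k_{n+1}` with `x_{k_i} ≤ T` -/
def corr (n : ℕ) (f : (Fin (n + 1) → ℝ) → ℝ) (T : ℝ) (x : ℕ → ℝ) : ℝ :=
  (∑ σ ∈ (Fintype.piFinset (fun _ : Fin (n + 2) => Finset.range (number T x))).filter
    (fun σ => Function.Injective σ), f (fun j => x (σ j.succ) - x (σ 0))) / T

/-- the number of the levels `x k ≤ T` whose distance to the next level is less than `s` -/
def gaps (s T : ℝ) (x : ℕ → ℝ) : ℕ := Set.ncard {k : ℕ | x k ≤ T ∧ x (k + 1) - x k < s}

theorem result (M : Type) [MetricSpace M] [CompactSpace M] [MeasurableSpace M] [BorelSpace M]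
    [Nonempty M] (μ : Measure M) (D : Data M) (hD : D.IsSurf μ) (φ : C(M, ℝ)) (hB : HasBand D φ)
    (x : ℕ → ℝ) (hx : IsUnfolded D μ φ x) :
    (∀ (n : ℕ) (f : (Fin (n + 1) → ℝ) → ℝ), Continuous f → (∀ y, 0 ≤ f y) → 0 < f 0 →
      ∃ c : ℝ, 0 < c ∧ ∀ᶠ T : ℝ in atTop, c * T ^ (((n : ℝ) + 1) / 2) ≤ corr n f T x) ∧
    ∃ c C : ℝ, 0 < c ∧ 0 < C ∧ ∀ᶠ T : ℝ in atTop, c * T ≤ gaps (C / Real.sqrt T) T x :=
  ⟨fun n f hf hf0 hf1 => Pool.Agent.L7h70.SB.every Pool.Agent.L7h70.SB.t_CL
      Pool.Agent.L7h70.SB.t_CNT hD φ hB x hx n f hf hf0 hf1,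
    Pool.Agent.L7h70.SB.every2 Pool.Agent.L7h70.SB.t_CL Pool.Agent.L7h70.SB.t_GAP hD φ hB x hx⟩

end Pool.Agent.Results.MP_a825e8_mp.RoundBand
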