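import Pool.Agent.L7h70.SM.Top
import Pool.Agent.Results.MP_a825e8_mp.RoundBand

/-!
# The generic continuous Riemannian metric has unbounded correlations

Let `M` be a closed surface. In the space of all continuous Riemannian metrics on `M`, with the `C⁰`
topology (a Baire space), the generic metric has unbounded `n`-point correlations for all `n ≥ 2`: the
local statistics of its unfolded levels converge neither to those of the GOE nor to anything else.
Its levels do not repel each other either: for all prescribed `a`, `b` with `a (T) √T → ∞` and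
`b (T) → 0` there are arbitrarily large `T` for which at least `b (T) T` of the levels `x_k ≤ T` are closer
than `a (T)` to the next level.
-/

set_option autoImplicit false

open Set Filter Topology MeasureTheory
open scoped Real ContDiff
open Pool.Agent.Y262.QE

noncomputable section

namespace Pool.Agent.Results.MP_a825e8_mp.GenericContinuousMetric

open Pool.Agent.L7h70.SM (mk Met Levels)
open Pool.Agent.Results.MP_a825e8_mp.RoundBand (corr gaps)

theorem result (M : Type) [MetricSpace M] [CompactSpace M] [MeasurableSpace M] [BorelSpace M]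
    [Nonempty M] (D : Data M) (μ : Measure M) (hD : D.IsSurf μ) :
    BaireSpace (Met D) ∧ (∀ g : Met D, ∃ x, Levels (mk D g.A) g.μ x) ∧
    ∀ x : Met D → ℕ → ℝ, (∀ g, Levels (mk D g.A) g.μ (x g)) →
      -- generic metrics have unbounded correlations
      (∀ᶠ g in residual (Met D), ∀ (n : ℕ) (f : (Fin (n + 1) → ℝ) → ℝ), Continuous f →
        (∀ y, 0 ≤ f y) → 0 < f 0 → ∀ C : ℝ, ∃ᶠ T : ℝ in atTop, C ≤ corr n f T (x g)) ∧
      -- generic metrics have many small gaps
      ∀ a b : ℝ → ℝ, Tendsto (fun T => a T * Real.sqrt T) atTop atTop → Tendsto b atTop (𝓝 0) →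
        ∀ᶠ g in residual (Met D), ∃ᶠ T : ℝ in atTop, b T * T ≤ gaps (a T) T (x g) :=
  ⟨Pool.Agent.L7h53.SM.s_BAIM M D μ hD, fun g => Pool.Agent.L7h70.SM.lev_ex g.surf,
    fun x hx => Pool.Agent.L7h70.SM.t_main x hx⟩

end Pool.Agent.Results.MP_a825e8_mp.GenericContinuousMetric
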