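import Pool.Agent.Results.MP_a825e8_mp.RoundBand
import Pool.Agent.L7h46.SB.Col

/-!
# Arbitrarily close to hyperbolic metrics, in `C^(1,α)`, there are metrics with unbounded correlations

Let the closed surface `(M, g)` have a closed geodesic with a conformal collar, for instance let it be
hyperbolic. For every `α < 1` there is a smooth function `ψ` with support in the collar, arbitrarily
small in `C^(1,α)`, such that the `n`-point correlations of the metric `exp ψ · g` tend to infinity for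
all `n ≥ 2`, and a positive proportion of its levels `x_k ≤ T` have a distance `≤ C / √T` to the next
level. (A change of a hyperbolic metric which is small in `C^(1,1)` keeps the curvature negative.)
-/

set_option autoImplicit false

open Set Filter Topology MeasureTheory
open scoped Real ContDiff
open Pool.Agent.Y262.QE

noncomputable section

namespace Pool.Agent.Results.MP_a825e8_mp.NearClosedGeodesics

open Pool.Agent.Results.MP_a825e8_mp.SurfacesLimitStatistics (IsUnfolded number)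
open Pool.Agent.Results.MP_a825e8_mp.RoundBand (corr gaps)

/-- The chart `i` contains a conformal collar of a closed geodesic: on the annulus
`exp (-η) ≤ |z| ≤ exp η` the metric is `(exp (w z) / |z|)² |dz|²` with `w` smooth (with the coordinate
`log z` of the cylinder it is `exp (2 w) |d log z|²`), and `w = log a`, `dw = 0` on the unit circle, so that
the unit circle is a closed geodesic of length `2 π a`, parametrized with constant speed. -/
structure IsCollar {M : Type} [TopologicalSpace M] (D : Data M) (i : Fin D.N) (a η : ℝ)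
    (w : ℂ → ℝ) : Prop where
  posa : 0 < a
  posη : 0 < η
  ann : ∀ z : ℂ, Real.exp (-η) ≤ ‖z‖ → ‖z‖ ≤ Real.exp η → z ∈ D.T i ∧
    ∀ v, ‖D.A i z v‖ = Real.exp (w z) / ‖z‖ * ‖v‖
  smooth : ContDiffOn ℝ ∞ w {z | Real.exp (-η) < ‖z‖ ∧ ‖z‖ < Real.exp η}
  circ : ∀ z : ℂ, ‖z‖ = 1 → w z = Real.log a ∧ fderiv ℝ w z = 0

/-- Example (not used below): the collar of a closed geodesic of length `2 π a` of a hyperbolic surface is a
conformal collar, with `w z = log (a / cos (a log |z|))`. -/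
theorem hyperbolic {M : Type} [TopologicalSpace M] (D : Data M) (i : Fin D.N) (a η : ℝ)
    (ha : 0 < a) (hη : 0 < η) (haη : a * η < π / 2)
    (h : ∀ z : ℂ, Real.exp (-η) ≤ ‖z‖ → ‖z‖ ≤ Real.exp η → z ∈ D.T i ∧
      ∀ v, ‖D.A i z v‖ = a / (‖z‖ * Real.cos (a * Real.log ‖z‖)) * ‖v‖) :
    IsCollar D i a η fun z => Real.log (a / Real.cos (a * Real.log ‖z‖)) := by
  have hcos : ∀ z : ℂ, Real.exp (-η) ≤ ‖z‖ → ‖z‖ ≤ Real.exp η → 0 < ‖z‖ ∧
      0 < Real.cos (a * Real.log ‖z‖) := by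
    intro z h1 h2
    have h0 : 0 < ‖z‖ := (Real.exp_pos _).trans_le h1
    have h3 : -η ≤ Real.log ‖z‖ := (Real.le_log_iff_exp_le h0).2 h1
    have h4 : Real.log ‖z‖ ≤ η := (Real.log_le_iff_le_exp h0).2 h2
    refine ⟨h0, Real.cos_pos_of_mem_Ioo ⟨?_, ?_⟩⟩
    · nlinarith
    · nlinarith
  refine ⟨ha, hη, fun z h1 h2 => ?_, ?_, ?_⟩
  · obtain ⟨h3, h4⟩ := h z h1 h2
    obtain ⟨h5, h6⟩ := hcos z h1 h2
    refine ⟨h3, fun v => ?_⟩
    rw [h4 v, Real.exp_log (by positivity)]
    congr 1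
    field_simp
  · intro z hz
    obtain ⟨h5, h6⟩ := hcos z hz.1.le hz.2.le
    have hz0 : z ≠ 0 := norm_pos_iff.1 h5
    apply ContDiffAt.contDiffWithinAt
    have h7 : ContDiffAt ℝ ∞ (fun z : ℂ => Real.log ‖z‖) z :=
      (contDiffAt_norm ℝ hz0).log h5.ne'
    have h8 : ContDiffAt ℝ ∞ (fun z : ℂ => Real.cos (a * Real.log ‖z‖)) z :=
      Real.contDiff_cos.contDiffAt.comp z (contDiffAt_const.mul h7)
    exact (contDiffAt_const.div h8 h6.ne').log (div_pos ha h6).ne'
  · intro z hz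
    have hz0 : z ≠ 0 := by
      intro h0
      rw [h0, norm_zero] at hz
      norm_num at hz
    constructor
    · simp [hz]
    · have h7 : DifferentiableAt ℝ (fun z : ℂ => Real.log ‖z‖) z :=
        ((contDiffAt_norm ℝ hz0 (n := 1)).differentiableAt one_ne_zero).log (norm_ne_zero_iff.2 hz0)
      have h8 : HasDerivAt (fun t : ℝ => Real.log (a / Real.cos (a * t))) 0 (Real.log ‖z‖) := by
        rw [hz, Real.log_one]
        have h9 : HasDerivAt (fun t : ℝ => Real.cos (a * t)) (-Real.sin (a * 0) * (a * 1)) 0 :=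
          (Real.hasDerivAt_cos (a * 0)).comp (0 : ℝ) ((hasDerivAt_id (0 : ℝ)).const_mul a)
        have h10 := (h9.fun_inv (by simp)).const_mul a
        have h11 : HasDerivAt (fun t : ℝ => a / Real.cos (a * t)) 0 0 := by
          have h11 : a * (-(-Real.sin (a * 0) * (a * 1)) / Real.cos (a * 0) ^ 2) = 0 := by simp
          rw [h11] at h10
          simpa only [div_eq_mul_inv] using h10
        have h12 := h11.log (by simp [ha.ne'])
        simpa using h12
      have h9 := h8.comp_hasFDerivAt z h7.hasFDerivAt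
      have h10 : HasFDerivAt (fun z : ℂ => Real.log (a / Real.cos (a * Real.log ‖z‖)))
          (0 : ℂ →L[ℝ] ℝ) z := by
        rw [zero_smul] at h9
        exact h9
      exact h10.fderiv

theorem result (M : Type) [MetricSpace M] [CompactSpace M] [MeasurableSpace M] [BorelSpace M]
    [Nonempty M] (μ : Measure M) (D : Data M) (hD : D.IsSurf μ) (i : Fin D.N) (a η : ℝ)
    (w : ℂ → ℝ) (hw : IsCollar D i a η w) (α ε : ℝ) (hα : 0 < α) (hα1 : α < 1) (hε : 0 < ε) :
    ∃ (ψ : C(M, ℝ)) (g : ℂ → ℝ),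
      (∀ p, p ∉ D.U i → ψ p = 0) ∧ (∀ z ∈ D.T i, ψ (D.ψ i z) = g z) ∧
      -- smooth, with support in the collar, small in `C^(1,α)`
      ContDiff ℝ ∞ g ∧ tsupport g ⊆ {z | Real.exp (-η) < ‖z‖ ∧ ‖z‖ < Real.exp η} ∧
      (∀ z, |g z| ≤ ε) ∧ (∀ z, ‖fderiv ℝ g z‖ ≤ ε) ∧
      (∀ z z', ‖fderiv ℝ g z - fderiv ℝ g z'‖ ≤ ε * ‖z - z'‖ ^ α) ∧
      -- the statistics of `exp ψ · g`
      ∀ x : ℕ → ℝ, IsUnfolded D μ ψ x →
        (∀ (n : ℕ) (f : (Fin (n + 1) → ℝ) → ℝ), Continuous f → (∀ y, 0 ≤ f y) → 0 < f 0 →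
          ∃ c : ℝ, 0 < c ∧ ∀ᶠ T : ℝ in atTop, c * T ^ (((n : ℝ) + 1) / 2) ≤ corr n f T x) ∧
        ∃ c C : ℝ, 0 < c ∧ 0 < C ∧ ∀ᶠ T : ℝ in atTop, c * T ≤ gaps (C / Real.sqrt T) T x := by
  obtain ⟨ψ, g, h1, h2, h3, h4, h5, h6, h7, h8⟩ := Pool.Agent.L7h46.SB.s_COL M μ D hD i a η w
    ⟨hw.posa, hw.posη, hw.ann, hw.smooth, hw.circ⟩ α ε hα hα1 hε
  exact ⟨ψ, g, h2, h3, h4, h5, h6, h7, h8, fun x hx =>
    Pool.Agent.Results.MP_a825e8_mp.RoundBand.result M μ D hD ψ h1 x hx⟩

end Pool.Agent.Results.MP_a825e8_mp.NearClosedGeodesics
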